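import Pool.Agent.MP_49383f_gt.Final
import Pool.Agent.MP_49383f_gt.Scale

namespace Pool.Agent.Results.MP_49383f_gt.GenusOne

open Pool.Agent.MP_49383f_gt

/-- For every real `H ≠ 0` there are convex curves `Γ₁`, `Γ₂` in two distinct parallel planes of
`ℝ³` and a compact connected embedded surface `S` of constant mean curvature `H` with boundary
`Γ₁ ∪ Γ₂` which is not homeomorphic to an annulus. -/
theorem result (H : ℝ) (hH : H ≠ 0) :
    ∃ (h₁ h₂ : ℝ) (Γ₁ Γ₂ S : Set R3), h₁ ≠ h₂ ∧ IsConvexPlaneCurve h₁ Γ₁ ∧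
      IsConvexPlaneCurve h₂ Γ₂ ∧ IsCMCSurface S (Γ₁ ∪ Γ₂) H ∧
      ¬ Nonempty (S ≃ₜ Circle × unitInterval) := by
  obtain ⟨C, -, e1, he1, core⟩ := exists_core
  obtain ⟨e2, he2, geo⟩ := geometry C
  obtain ⟨φ₁, φ₂, hc⟩ := core (min e1 e2 / 2) (by positivity) (by
    have := min_le_left e1 e2
    have : 0 < min e1 e2 := by positivity
    linarith)
  set ε := min e1 e2 / 2 with hε
  have hε0 : 0 < ε := by positivity
  obtain ⟨h₁, h₂, Γ₁, Γ₂, S, k1, k2, k3, k4, k5⟩ := geo ε hε0 (by
    have := min_le_right e1 e2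
    have : 0 < min e1 e2 := by positivity
    linarith) φ₁ φ₂ hc
  have hl : 0 < 2 * ε / |H| := by positivity
  have hS := Scale.cmc_smul k4 hl
  rw [Set.image_union] at hS
  refine ⟨2 * ε / |H| * h₁, 2 * ε / |H| * h₂, _, _, _, ?_,
    Scale.convexCurve_smul k2.param hl, Scale.convexCurve_smul k3.param hl, ?_,
    Scale.not_annulus_smul hl k5⟩
  · intro h
    exact k1 (mul_left_cancel₀ hl.ne' h)
  · have hval : -2 * ε / (2 * ε / |H|) = -|H| := by
      have : |H| ≠ 0 := abs_ne_zero.2 hH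
      field_simp
    rw [hval] at hS
    rcases lt_or_gt_of_ne hH with h | h
    · have h' : -|H| = H := by rw [abs_of_neg h, neg_neg]
      rw [h'] at hS
      exact hS
    · have h' : - -|H| = H := by rw [abs_of_pos h, neg_neg]
      have := Scale.cmc_neg hS
      rw [h'] at this
      exact this

end Pool.Agent.Results.MP_49383f_gt.GenusOne
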